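import Pool.Agent.MP_d97ab6_al.H91.Tr

/-! The adjoint trace field, general form. -/

namespace Pool.Agent.MP_d97ab6_al.H91

open Matrix Complex

namespace Tr

theorem pow_gen (τ ρ s : ℂ) (A B d : ℕ) (hB : 0 < B) (hs : s * s = d) (h : τ * ρ = A + B * s)
    (k : ℕ) : ∃ a0 a1 b0 b1 c0 c1 d0 d1 : ℕ, 0 < a1 ∧
    io (1 + τ * ρ) τ ρ 1 ^ (k + 1) =
      io (a0 + a1 * s) ((b0 + b1 * s) * τ) ((c0 + c1 * s) * ρ) (d0 + d1 * s) := by
  induction k with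
  | zero => exact ⟨1 + A, B, 1, 0, 1, 0, 1, 0, hB, by simp [h, add_assoc]⟩
  | succ k ih =>
    obtain ⟨a0, a1, b0, b1, c0, c1, d0, d1, h1, e⟩ := ih
    refine ⟨a0 + (a0 + b0) * A + (a1 + b1) * B * d, a1 + (a0 + b0) * B + (a1 + b1) * A, a0 + b0,
      a1 + b1, c0 + d0 + c0 * A + c1 * B * d, c1 + d1 + c0 * B + c1 * A,
      d0 + c0 * A + c1 * B * d, d1 + c0 * B + c1 * A, by omega, ?_⟩
    rw [pow_succ, e, io_mul]
    push_cast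
    congr 1
    · linear_combination ((a0 + b0 + (a1 + b1) * s : ℂ)) * h + ((a1 + b1) * B : ℂ) * hs
    · ring
    · linear_combination ((c0 + c1 * s) * ρ : ℂ) * h + (c1 * B * ρ : ℂ) * hs
    · linear_combination ((c0 + c1 * s : ℂ)) * h + (c1 * B : ℂ) * hs

end Tr

open Tr

theorem rowTrgen (τ ρ : ℝ) (A B : ℤ) (d : ℕ) (hA : 0 ≤ A) (hB : 0 < B) (h : τ * ρ = A + B * √d)
    (Γ : Subgroup SU31)
    (hT : ∃ γ ∈ Γ, γ.1.1 = !![1, 0, 0, (τ : ℂ) * I; 0, 1, 0, 0; 0, 0, 1, 0; 0, 0, 0, 1])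
    (hL : ∃ γ ∈ Γ, γ.1.1 = !![1, 0, 0, 0; 0, 1, 0, 0; 0, 0, 1, 0; (ρ : ℂ) * I, 0, 0, 1])
    (g : SU31) (Δ : Subgroup SU31)
    (hc : Subgroup.Commensurable (Γ.map (MulAut.conj g).toMonoidHom) Δ) : √d ∈ adField Δ := by
  obtain ⟨t, ht, et⟩ := hT
  obtain ⟨l, hl, el⟩ := hL
  lift A to ℕ using hA
  lift B to ℕ using hB.le
  have h2 : √d * √d = (d : ℝ) := Real.mul_self_sqrt d.cast_nonneg
  have ti : io 1 τ 0 1 * t.1.1 = 1 := by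
    rw [et]
    ext i j
    fin_cases i <;> fin_cases j <;> simp [io, Matrix.mul_apply, Fin.sum_univ_four]
  have li : l.1.1 = io 1 0 ρ 1 := by
    rw [el]
    ext i j
    fin_cases i <;> fin_cases j <;> simp [io]
  have e1 : (t⁻¹).1.1 = io 1 τ 0 1 := by
    calc (t⁻¹).1.1 = (io 1 τ 0 1 * t.1.1) * (t⁻¹).1.1 := by rw [ti, Matrix.one_mul]
      _ = io 1 τ 0 1 := by rw [Matrix.mul_assoc, val_inv, Matrix.mul_one]
  have e2 : (t⁻¹ * l).1.1 = io (1 + τ * ρ) τ ρ 1 := by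
    rw [val_mul, e1, li, io_mul]
    congr 1 <;> ring
  have hm : g * (t⁻¹ * l) * g⁻¹ ∈ Γ.map (MulAut.conj g).toMonoidHom :=
    ⟨_, Γ.mul_mem (Γ.inv_mem ht) hl, rfl⟩
  obtain ⟨n, n0, -, hn⟩ := Subgroup.exists_pow_mem_of_relIndex_ne_zero hc.2 hm
  obtain ⟨k, rfl⟩ : ∃ k, n = k + 1 := ⟨n - 1, by omega⟩
  obtain ⟨a0, a1, b0, b1, c0, c1, d0, d1, h1, e⟩ := pow_gen τ ρ ((√d : ℝ) : ℂ) A B d
    (by exact_mod_cast hB) (by exact_mod_cast h2) (by exact_mod_cast h) k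
  have tr : Matrix.trace ((g * (t⁻¹ * l) * g⁻¹) ^ (k + 1)).1.1 =
      ((((a0 + d0 + 2 : ℕ) : ℝ) + ((a1 + d1 : ℕ) : ℝ) * √d : ℝ) : ℂ) := by
    rw [conj_pow, val_mul, Matrix.trace_mul_comm, val_mul, ← Matrix.mul_assoc, val_inv',
      Matrix.one_mul, val_pow, e2, e, tr_io]
    push_cast
    ring
  have hx : normSq (Matrix.trace ((g * (t⁻¹ * l) * g⁻¹) ^ (k + 1)).1.1) - 1 ∈ adField Δ :=
    Subfield.subset_closure ⟨_, hn.1, rfl⟩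
  rw [tr, normSq_ofReal] at hx
  generalize hP : a0 + d0 + 2 = P at hx
  generalize hQ : a1 + d1 = Q at hx
  have pA : (0 : ℝ) < P := by exact_mod_cast (by omega : 0 < P)
  have pB : (0 : ℝ) < Q := by exact_mod_cast (by omega : 0 < Q)
  have : √d = ((((P : ℝ) + Q * √d) * (P + Q * √d) - 1) + 1 - ((P * P + d * Q * Q : ℕ) : ℝ))
      / ((2 * P * Q : ℕ) : ℝ) := by
    push_cast
    rw [eq_div_iff (by positivity)]
    linear_combination (-(Q : ℝ) ^ 2) * h2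
  rw [this]
  exact div_mem (sub_mem (add_mem hx (one_mem _)) (natCast_mem _ _)) (natCast_mem _ _)

end Pool.Agent.MP_d97ab6_al.H91
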